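import Pool.Agent.Work.MP_f4b644_ag.Dag.Lem2
import Pool.Agent.Work.MP_f4b644_ag.Thin.S4
import Pool.Agent.Work.MP_f4b644_ag.Thin.S5
import Pool.Agent.Work.MP_f4b644_ag.Thin.M1
import Pool.Agent.Work.MP_f4b644_ag.Big.Top

/-!
Final assembly: the generic rank formula for all balanced formats follows from `Root I J r` for the
triples I, J, r that are still needed.
-/

set_option autoImplicit false

namespace Pool.Agent.Work.MP_f4b644_ag.Fin

open Pool.Agent.Work.MP_f4b644_ag Big Thin Dag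

/-- the ranks that occur for a balanced format `I ≤ J ≤ K`: with `v = I J - r`, `τ = J + I - 2`,
`τ ≤ v` and the largest admissible `K = ⌊r τ / v⌋` is at least `J`. -/
def Need (I J r : ℕ) : Prop :=
  r + (J + I - 2) ≤ I * J ∧ J * (I * J - r) ≤ r * (J + I - 2)

/-- outside the region of `denseA`, at the largest admissible `K` -/
def NotA (I J r : ℕ) : Prop :=
  (I * J) ^ 2 < 16 * (I + J) * (I + J + r * (J + I - 2) / (I * J - r)) ^ 2

theorem dense_of_Root {I J K s : ℕ} (hI : 3 ≤ I) (hIJ : I ≤ J) (hJK : J ≤ K)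
    (hK : K ≤ (I - 1) * (J - 1)) (h1 : I * J * K + 2 * s ≤ s * (I + J + K))
    (h2 : s * (I + J + K) + 2 < I * J * K + 2 * s + (I + J + K))
    (H : Need I J s → NotA I J s → Root I J s) : Dense (RankSet I J K s) := by
  by_cases hA : 16 * (I + J) * (I + J + K) ^ 2 ≤ (I * J) ^ 2
  · exact denseA (by omega) hIJ hJK hA s h1 h2
  obtain ⟨τ, hτ⟩ : ∃ τ, τ = J + I - 2 := ⟨_, rfl⟩
  have eN : I + J + K = τ + K + 2 := by omega
  have hb : K + τ + 1 ≤ I * J := by
    obtain ⟨j, rfl⟩ : ∃ j, J = j + 1 := ⟨J - 1, by omega⟩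
    obtain ⟨i, rfl⟩ : ∃ i, I = i + 1 := ⟨I - 1, by omega⟩
    simp only [Nat.add_sub_cancel] at hK
    have e : (i + 1) * (j + 1) = i * j + i + j + 1 := by ring
    omega
  have g1 : I * J * K ≤ s * (τ + K) := by rw [eN] at h1; nlinarith
  have g2 : s * (τ + K) < I * J * K + (τ + K) := by rw [eN] at h2; nlinarith
  have hs := Top_le (I * J) τ K s hb g2
  obtain ⟨v, hv⟩ : ∃ v, s + v = I * J := ⟨I * J - s, by omega⟩
  have ev : I * J - s = v := by omega
  have k1 : K * v ≤ s * τ := by rw [← hv] at g1; nlinarith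
  have hv0 : 0 < v := by omega
  have k2 : K ≤ s * τ / v := (Nat.le_div_iff_mul_le hv0).2 k1
  refine dense_of_S (H ⟨by omega, ?_⟩ ?_ K (by rw [ev, ← hτ]; exact k1) (by omega))
  · rw [ev, ← hτ]
    exact le_trans (Nat.mul_le_mul_right _ hJK) k1
  · unfold NotA
    rw [ev, ← hτ]
    refine lt_of_lt_of_le (not_le.1 hA) (Nat.mul_le_mul_left _ (Nat.pow_le_pow_left (by omega) 2))

theorem final_of
    (H45 : ∀ I J r, 4 ≤ I → I ≤ 5 → I ≤ J → J < 200 → Need I J r → Root I J r)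
    (H6 : ∀ I J r, 6 ≤ I → I < 10 ^ 18 → I ≤ J → Need I J r → NotA I J r → Root I J r) :
    ∀ I J K : ℕ, 1 ≤ I → I ≤ J → J ≤ K → K ≤ (I - 1) * (J - 1) →
      (¬ ∃ p : ℕ, I = 3 ∧ J = 2 * p + 1 ∧ K = 2 * p + 1) →
      ∀ r : ℕ,
        (Dense {T : Fin I → Fin J → Fin K → ℂ |
            ∃ a : Fin r → Fin I → ℂ, ∃ b : Fin r → Fin J → ℂ, ∃ c : Fin r → Fin K → ℂ,
              T = fun i j k => ∑ l : Fin r, a l i * b l j * c l k}
          ↔ ⌈((I : ℝ) * J * K) / ((I : ℝ) + J + K - 2)⌉₊ ≤ r) := by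
  intro I J K hI hIJ hJK hK hex r
  refine dense_iff_of_span hI (by omega) (by omega) (fun s h1 h2 => ?_) r
  have h3 : 3 ≤ I := by
    by_contra hc
    obtain rfl | rfl : I = 1 ∨ I = 2 := by omega
    · omega
    · omega
  by_cases c3 : I = 3
  · subst c3
    exact dense3 hIJ hJK hK (fun ⟨p, hp⟩ => hex ⟨p, rfl, hp⟩) s h1 h2
  by_cases c5 : I ≤ 5
  · by_cases cJ : J < 200
    · exact dense_of_Root h3 hIJ hJK hK h1 h2 fun hN _ => H45 I J s (by omega) c5 hIJ cJ hN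
    · obtain rfl | rfl : I = 4 ∨ I = 5 := by omega
      · exact dense4 (by omega) hJK hK s h1 h2
      · exact dense5 (by omega) hJK hK s h1 h2
  by_cases cI : 10 ^ 18 ≤ I
  · exact dense_big cI hIJ hJK hK s h1 h2
  exact dense_of_Root h3 hIJ hJK hK h1 h2 fun hN hA =>
    H6 I J s (by omega) (by omega) hIJ hN hA

end Pool.Agent.Work.MP_f4b644_ag.Fin
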