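import Pool.Agent.Work.MP_f4b644_ag.Mid.Thin
import Pool.Agent.Work.MP_f4b644_ag.Mid.Big
import Pool.Agent.Work.MP_f4b644_ag.Dag.All3

/-!
All roots follow from the two remaining ranges of `I`.
-/

set_option autoImplicit false

namespace Pool.Agent.Work.MP_f4b644_ag.Fin

open Dag Mid

theorem H6_of
    (B : ∀ I J r, 30 ≤ I → I ≤ 61 → 150 ≤ J → Need I J r → NotA I J r → Root I J r)
    (C : ∀ I J r, 62 ≤ I → I < 1602 → I ≤ J → 100 ≤ J → Need I J r → NotA I J r → Root I J r) :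
    ∀ I J r, 6 ≤ I → I < 10 ^ 18 → I ≤ J → Need I J r → NotA I J r → Root I J r := by
  intro I J r h6 hI hJ hN hA
  by_cases c : J < 100 ∨ (I = 6 ∧ J < 320) ∨ (I = 7 ∧ J < 600) ∨ (8 ≤ I ∧ I ≤ 12 ∧ J ≤ 3 * I ^ 2) ∨
      (I ≤ 61 ∧ J < 150)
  · exact root_dag2 I J r h6 hJ hN c
  simp only [not_or, not_and, not_lt, not_le] at c
  obtain ⟨c1, c2, c3, c4, c5⟩ := c
  by_cases h29 : I ≤ 29
  · refine HH.root (thin (by omega) (by omega) (c5 (by omega)) (fun e => c2 (by omega))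
      (fun e => c3 (by omega)) fun a b => ?_) h6 hJ hN hA
    rw [show I - 2 + 2 = I by omega]
    exact c4 (by omega) (by omega)
  by_cases h61 : I ≤ 61
  · exact B I J r (by omega) h61 (c5 h61) hN hA
  by_cases h2 : I < 1602
  · exact C I J r (by omega) h2 hJ c1 hN hA
  exact HH.root (big (by omega) (by omega) (by omega)) h6 hJ hN hA

end Pool.Agent.Work.MP_f4b644_ag.Fin
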